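import Mathlib

/-!
# Choice of signs (deterministic form of the exponential moment bound)
-/

set_option autoImplicit false
set_option linter.all false

namespace Pool.Agent.Helper37.RT

open Finset

/-- one sign -/
theorem t1_step {τ : Type*} (Θ : Finset τ) (Q b : τ → ℝ) (hQ : ∀ t ∈ Θ, 0 ≤ Q t) (m : ℝ) :
    ∃ s : ℝ, (s = 1 ∨ s = -1) ∧
      ∑ t ∈ Θ, Q t * Real.exp (s * b t - b t ^ 2 / 2) + s * m ≤ ∑ t ∈ Θ, Q t := by
  have key : (∑ t ∈ Θ, Q t * Real.exp (1 * b t - b t ^ 2 / 2) + 1 * m) +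
      (∑ t ∈ Θ, Q t * Real.exp (-1 * b t - b t ^ 2 / 2) + -1 * m) ≤ 2 * ∑ t ∈ Θ, Q t := by
    have h : ∑ t ∈ Θ, Q t * Real.exp (1 * b t - b t ^ 2 / 2) +
        ∑ t ∈ Θ, Q t * Real.exp (-1 * b t - b t ^ 2 / 2) ≤ 2 * ∑ t ∈ Θ, Q t := by
      rw [← sum_add_distrib, mul_sum]
      refine sum_le_sum fun t ht => ?_
      have h1 := Real.cosh_le_exp_half_sq (b t)
      rw [Real.cosh_eq] at h1
      have h2 : Real.exp (1 * b t - b t ^ 2 / 2) + Real.exp (-1 * b t - b t ^ 2 / 2) ≤ 2 := by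
        have e1 : Real.exp (1 * b t - b t ^ 2 / 2) = Real.exp (b t) * Real.exp (-(b t ^ 2 / 2)) := by
          rw [← Real.exp_add]; ring_nf
        have e2 : Real.exp (-1 * b t - b t ^ 2 / 2) =
            Real.exp (-b t) * Real.exp (-(b t ^ 2 / 2)) := by
          rw [← Real.exp_add]; ring_nf
        have e3 : Real.exp (b t ^ 2 / 2) * Real.exp (-(b t ^ 2 / 2)) = 1 := by
          rw [← Real.exp_add]; simp
        have h3 : 0 ≤ Real.exp (-(b t ^ 2 / 2)) := (Real.exp_pos _).le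
        rw [e1, e2]
        have h4 := mul_le_mul_of_nonneg_right h1 h3
        nlinarith
      have := mul_le_mul_of_nonneg_left h2 (hQ t ht)
      linarith
    linarith
  by_cases h : ∑ t ∈ Θ, Q t * Real.exp (1 * b t - b t ^ 2 / 2) + 1 * m ≤ ∑ t ∈ Θ, Q t
  · exact ⟨1, Or.inl rfl, h⟩
  · exact ⟨-1, Or.inr rfl, by push Not at h; linarith⟩

/-- ROW T1 : sign choice -/
theorem sign_choice {ι τ : Type*} (C : Finset ι) (Θ : Finset τ) (P : τ → ℝ)
    (hP : ∀ t ∈ Θ, 0 ≤ P t) (β : τ → ι → ℝ) (l : ι → ℝ) :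
    ∃ ω : ι → ℝ, (∀ c, ω c = 1 ∨ ω c = -1) ∧
      ∑ t ∈ Θ, P t * Real.exp (∑ c ∈ C, ω c * β t c - (∑ c ∈ C, (β t c) ^ 2) / 2)
        + ∑ c ∈ C, ω c * l c ≤ ∑ t ∈ Θ, P t := by
  classical
  induction C using Finset.induction_on with
  | empty => exact ⟨fun _ => 1, fun _ => Or.inl rfl, by simp⟩
  | insert a C ha ih =>
    obtain ⟨ω, h1, h2⟩ := ih
    obtain ⟨s, hs, h3⟩ := t1_step Θ
      (fun t => P t * Real.exp (∑ c ∈ C, ω c * β t c - (∑ c ∈ C, (β t c) ^ 2) / 2))
      (fun t => β t a) (fun t ht => mul_nonneg (hP t ht) (Real.exp_pos _).le) (l a)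
    refine ⟨Function.update ω a s, fun c => ?_, ?_⟩
    · by_cases hc : c = a
      · rw [hc, Function.update_self]; exact hs
      · rw [Function.update_of_ne hc]; exact h1 c
    · have e1 : ∀ f : ι → ℝ, ∑ c ∈ insert a C, Function.update ω a s c * f c =
          s * f a + ∑ c ∈ C, ω c * f c := by
        intro f
        rw [sum_insert ha, Function.update_self]
        congr 1
        refine sum_congr rfl fun c hc => ?_
        rw [Function.update_of_ne]
        rintro rfl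
        exact ha hc
      rw [e1]
      have e2 : ∀ t ∈ Θ, P t * Real.exp (∑ c ∈ insert a C, Function.update ω a s c * β t c -
          (∑ c ∈ insert a C, (β t c) ^ 2) / 2) =
          P t * Real.exp (∑ c ∈ C, ω c * β t c - (∑ c ∈ C, (β t c) ^ 2) / 2) *
            Real.exp (s * β t a - β t a ^ 2 / 2) := by
        intro t _
        rw [e1, sum_insert ha, mul_assoc, ← Real.exp_add]
        congr 2
        ring
      rw [sum_congr rfl e2]
      linarith

end Pool.Agent.Helper37.RT
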